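import Pool.Agent.Lib.MP_eee7a8_ag.TB.Iface4

/-!
# POSR: nonnegative combinations
-/

set_option autoImplicit false

namespace Pool.Agent.Lib.MP_eee7a8_ag.TB.C64

open Pool.Agent.Lib.MP_eee7a8_ag.TB

variable {K : Type} [Field K] [Algebra ℂ K]

theorem ps_zero (S : Set K) : (0 : K) ∈ PosSpan S := by
  refine ⟨∅, fun _ => 0, by simp, by simp, by simp⟩

theorem ps_sub (S : Set K) : S ⊆ PosSpan S := by
  intro y hy
  refine ⟨{y}, fun _ => 1, by simpa using hy, fun _ _ => zero_le_one, by simp⟩

theorem ps_smul (S : Set K) (x : K) (hx : x ∈ PosSpan S) (c : ℝ) (hc : 0 ≤ c) :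
    algebraMap ℂ K (c : ℂ) * x ∈ PosSpan S := by
  obtain ⟨s, d, h1, h2, rfl⟩ := hx
  refine ⟨s, fun y => c * d y, h1, fun y hy => mul_nonneg hc (h2 y hy), ?_⟩
  rw [Finset.mul_sum]
  refine Finset.sum_congr rfl (fun y _ => ?_)
  rw [Complex.ofReal_mul, map_mul, mul_assoc]

theorem ps_add (S : Set K) (x : K) (hx : x ∈ PosSpan S) (y : K) (hy : y ∈ PosSpan S) :
    x + y ∈ PosSpan S := by
  classical
  obtain ⟨s, c, h1, h2, rfl⟩ := hx
  obtain ⟨t, d, h3, h4, rfl⟩ := hy
  refine ⟨s ∪ t, fun z => (if z ∈ s then c z else 0) + (if z ∈ t then d z else 0), ?_, ?_, ?_⟩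
  · rw [Finset.coe_union]
    exact Set.union_subset h1 h3
  · intro z _
    refine add_nonneg ?_ ?_
    · split_ifs with h
      · exact h2 z h
      · exact le_refl _
    · split_ifs with h
      · exact h4 z h
      · exact le_refl _
  · have e1 : ∑ z ∈ s, algebraMap ℂ K (c z) * z =
        ∑ z ∈ s ∪ t, algebraMap ℂ K ((if z ∈ s then c z else 0 : ℝ) : ℂ) * z := by
      rw [← Finset.sum_subset Finset.subset_union_left]
      · exact Finset.sum_congr rfl (fun z hz => by rw [if_pos hz])
      · intro z _ hz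
        rw [if_neg hz]
        simp
    have e2 : ∑ z ∈ t, algebraMap ℂ K (d z) * z =
        ∑ z ∈ s ∪ t, algebraMap ℂ K ((if z ∈ t then d z else 0 : ℝ) : ℂ) * z := by
      rw [← Finset.sum_subset Finset.subset_union_right]
      · exact Finset.sum_congr rfl (fun z hz => by rw [if_pos hz])
      · intro z _ hz
        rw [if_neg hz]
        simp
    rw [e1, e2, ← Finset.sum_add_distrib]
    refine Finset.sum_congr rfl (fun z _ => ?_)
    rw [Complex.ofReal_add, map_add, add_mul]

/-- Induction principle. -/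
theorem ps_ind (S : Set K) (Q : Set K) (h0 : (0 : K) ∈ Q) (ha : ∀ x ∈ Q, ∀ y ∈ Q, x + y ∈ Q)
    (hm : ∀ x ∈ Q, ∀ c : ℝ, 0 ≤ c → algebraMap ℂ K (c : ℂ) * x ∈ Q) (hS : S ⊆ Q) :
    PosSpan S ⊆ Q := by
  classical
  rintro x ⟨s, c, h1, h2, rfl⟩
  have key : ∀ t : Finset K, t ⊆ s → ∑ y ∈ t, algebraMap ℂ K (c y) * y ∈ Q := by
    intro t
    induction t using Finset.induction_on with
    | empty => intro _; simpa using h0
    | insert a t hat ih =>
      intro ht
      rw [Finset.sum_insert hat]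
      have has : a ∈ s := ht (Finset.mem_insert_self a t)
      exact ha _ (hm _ (hS (h1 has)) _ (h2 a has)) _
        (ih (fun z hz => ht (Finset.mem_insert_of_mem hz)))
  exact key s (Finset.Subset.refl s)

/-- POSR. -/
theorem posr : PosrStatement := by
  intro K _ _ S
  refine ⟨ps_sub S, ps_add S, ps_smul S, ?_, ps_zero S, ?_⟩
  · intro hmul x hx y hy
    have h1 : ∀ s ∈ S, PosSpan S ⊆ {y : K | s * y ∈ PosSpan S} := by
      intro s hs
      refine ps_ind S _ ?_ ?_ ?_ ?_
      · change s * 0 ∈ PosSpan S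
        rw [mul_zero]; exact ps_zero S
      · intro a ha b hb
        change s * (a + b) ∈ PosSpan S
        rw [mul_add]; exact ps_add S _ ha _ hb
      · intro a ha c hc
        change s * (algebraMap ℂ K (c : ℂ) * a) ∈ PosSpan S
        rw [mul_left_comm]; exact ps_smul S _ ha c hc
      · intro a ha
        exact ps_sub S (hmul s hs a ha)
    have h2 : PosSpan S ⊆ {x : K | x * y ∈ PosSpan S} := by
      refine ps_ind S _ ?_ ?_ ?_ ?_
      · change 0 * y ∈ PosSpan S
        rw [zero_mul]; exact ps_zero S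
      · intro a ha b hb
        change (a + b) * y ∈ PosSpan S
        rw [add_mul]; exact ps_add S _ ha _ hb
      · intro a ha c hc
        change algebraMap ℂ K (c : ℂ) * a * y ∈ PosSpan S
        rw [mul_assoc]; exact ps_smul S _ ha c hc
      · intro a ha
        exact h1 a ha hy
    exact h2 hx
  · intro S' h
    exact ps_ind S _ (ps_zero S') (ps_add S') (ps_smul S') h

end Pool.Agent.Lib.MP_eee7a8_ag.TB.C64
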