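import Pool.Agent.Lib.MP_eee7a8_ag.TB.Iface4

/-!
# TAGBR: TPLAIN (every triangulation comes from a tagged triangulation)
-/

open Matrix

namespace Pool.Agent.Lib.MP_eee7a8_ag.TB.C64

variable {G : Subgroup SLZ}

theorem sameArc_symm {a b c d : Cusp} (h : SameArc G a b c d) : SameArc G c d a b := by
  obtain ⟨g, hg, h | h⟩ := h
  · exact ⟨g⁻¹, G.inv_mem hg, Or.inl ⟨by rw [← h.1, inv_smul_smul], by rw [← h.2, inv_smul_smul]⟩⟩
  · exact ⟨g⁻¹, G.inv_mem hg, Or.inr ⟨by rw [← h.2, inv_smul_smul], by rw [← h.1, inv_smul_smul]⟩⟩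

theorem sameArc_trans {a b c d e f : Cusp} (h : SameArc G a b c d) (h' : SameArc G c d e f) :
    SameArc G a b e f := by
  obtain ⟨g, hg, h⟩ := h
  obtain ⟨k, hk, h'⟩ := h'
  refine ⟨k * g, G.mul_mem hk hg, ?_⟩
  rw [mul_smul, mul_smul]
  rcases h with ⟨h1, h2⟩ | ⟨h1, h2⟩ <;> rcases h' with ⟨h3, h4⟩ | ⟨h3, h4⟩
  · left; rw [h1, h2]; exact ⟨h3, h4⟩
  · right; rw [h1, h2]; exact ⟨h3, h4⟩
  · right; rw [h1, h2]; exact ⟨h4, h3⟩
  · left; rw [h1, h2]; exact ⟨h4, h3⟩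

theorem sameArc_swap {a b c d : Cusp} (h : SameArc G a b c d) : SameArc G a b d c := by
  obtain ⟨g, hg, h⟩ := h
  exact ⟨g, hg, h.symm⟩

theorem sameArc_self (a b : Cusp) : SameArc G a b a b :=
  ⟨1, G.one_mem, Or.inl ⟨one_smul _ _, one_smul _ _⟩⟩

theorem e_swap {ι : Type} {T : Fam ι} {a b : Cusp} (h : T.E G a b) : T.E G b a := by
  obtain ⟨i, hi⟩ := h
  exact ⟨i, sameArc_swap hi⟩

theorem e_smul {ι : Type} {T : Fam ι} {a b : Cusp} (h : T.E G a b) {g : SLZ} (hg : g ∈ G) :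
    T.E G (g • a) (g • b) := by
  obtain ⟨i, hi⟩ := h
  exact ⟨i, sameArc_trans hi ⟨g, hg, Or.inl ⟨rfl, rfl⟩⟩⟩

theorem e_self {ι : Type} (T : Fam ι) (i : ι) : T.E G (T.s i) (T.t i) := ⟨i, sameArc_self _ _⟩

theorem e_ne {ι : Type} {T : Fam ι} (hT : T.NonCross G) {a b : Cusp} (h : T.E G a b) : a ≠ b := by
  obtain ⟨i, g, _, hi⟩ := h
  intro hab
  apply hT.ne i
  rcases hi with ⟨h1, h2⟩ | ⟨h1, h2⟩
  · apply MulAction.injective g
    change g • T.s i = g • T.t i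
    rw [h1, h2, hab]
  · apply MulAction.injective g
    change g • T.s i = g • T.t i
    rw [h1, h2, hab]

theorem e_simple {ι : Type} {T : Fam ι} (hT : T.NonCross G) {a b : Cusp} (h : T.E G a b) :
    Simple G a b :=
  ⟨e_ne hT h, fun _ hg => hT.nocross _ _ _ _ h (e_smul h hg)⟩

theorem compat_self {τ : TArc} (h : IsTArc G τ) : Compat G τ τ :=
  ⟨h.simple, Or.inl ⟨⟨1, G.one_mem, one_smul _ _, one_smul _ _⟩, Or.inl rfl⟩⟩

theorem smul_eq_inv {g : SLZ} {a b : Cusp} (h : g • a = b) : g⁻¹ • b = a := by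
  rw [← h, inv_smul_smul]

theorem compat_symm {τ υ : TArc} (h : Compat G τ υ) : Compat G υ τ := by
  obtain ⟨h1, h2⟩ := h
  refine ⟨fun g hg hc => ?_, ?_⟩
  · apply h1 g⁻¹ (G.inv_mem hg)
    have h3 := (cross_smul g⁻¹ υ.a υ.b (g • τ.a) (g • τ.b)).2 hc
    rw [inv_smul_smul, inv_smul_smul] at h3
    exact cross_swap.1 h3
  · rcases h2 with ⟨⟨g, hg, h3, h4⟩, h5⟩ | ⟨⟨g, hg, h3, h4⟩, h5⟩ | ⟨h3, h4, h5, h6⟩
    · left
      refine ⟨⟨g⁻¹, G.inv_mem hg, smul_eq_inv h3, smul_eq_inv h4⟩, ?_⟩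
      rcases h5 with h5 | h5
      · exact Or.inl h5.symm
      · exact Or.inr h5.symm
    · right; left
      refine ⟨⟨g⁻¹, G.inv_mem hg, smul_eq_inv h4, smul_eq_inv h3⟩, ?_⟩
      rcases h5 with h5 | h5
      · exact Or.inr h5.symm
      · exact Or.inl h5.symm
    · right; right
      exact ⟨fun g hg hh => (h3 g⁻¹ (G.inv_mem hg) (smul_eq_inv hh)).symm,
        fun g hg hh => (h5 g⁻¹ (G.inv_mem hg) (smul_eq_inv hh)).symm,
        fun g hg hh => (h4 g⁻¹ (G.inv_mem hg) (smul_eq_inv hh)).symm,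
        fun g hg hh => (h6 g⁻¹ (G.inv_mem hg) (smul_eq_inv hh)).symm⟩

/-- Every compatible set of tagged arcs is contained in a tagged triangulation. -/
theorem exists_tTri (B : Set TArc) (h1 : ∀ τ ∈ B, IsTArc G τ)
    (h2 : ∀ τ ∈ B, ∀ υ ∈ B, Compat G τ υ) : ∃ Tt, B ⊆ Tt ∧ IsTTri G Tt := by
  obtain ⟨m, hm, hmax⟩ := zorn_subset_nonempty
    {X : Set TArc | (∀ τ ∈ X, IsTArc G τ) ∧ ∀ τ ∈ X, ∀ υ ∈ X, Compat G τ υ} (by
      intro c hc hch _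
      refine ⟨⋃₀ c, ⟨?_, ?_⟩, fun s hs => Set.subset_sUnion_of_mem hs⟩
      · rintro τ ⟨s, hs, hτ⟩
        exact (hc hs).1 τ hτ
      · rintro τ ⟨s, hs, hτ⟩ υ ⟨s', hs', hυ⟩
        rcases hch.total hs hs' with h | h
        · exact (hc hs').2 τ (h hτ) υ hυ
        · exact (hc hs).2 τ hτ υ (h hυ)) B ⟨h1, h2⟩
  have hmS := hmax.prop
  refine ⟨m, hm, ⟨hmS.1, hmS.2, ?_⟩⟩
  intro τ hτ hc
  have hins : insert τ m ∈
      {X : Set TArc | (∀ τ ∈ X, IsTArc G τ) ∧ ∀ τ ∈ X, ∀ υ ∈ X, Compat G τ υ} := by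
    constructor
    · intro υ hυ
      rcases hυ with rfl | hυ
      · exact hτ
      · exact hmS.1 υ hυ
    · intro υ hυ ω hω
      rcases hυ with rfl | hυ <;> rcases hω with rfl | hω
      · exact compat_self hτ
      · exact hc ω hω
      · exact compat_symm (hc υ hυ)
      · exact hmS.2 υ hυ ω hω
  exact hmax.le_of_ge hins (Set.subset_insert τ m) (Set.mem_insert τ m)

/-- The monomials depend only on the set of edges. -/
theorem range_mon {K : Type} [Field K] [Algebra ℂ K] (L : Lam G K) {n n' : ℕ} {T : Fam (Fin n)}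
    {T' : Fam (Fin n')} (hT : T.IsTri G) (hT' : T'.IsTri G)
    (h : ∀ a b, T.E G a b ↔ T'.E G a b) : Set.range (L.mon T) = Set.range (L.mon T') := by
  have h1 : ∀ i, ∃ j, SameArc G (T'.s j) (T'.t j) (T.s i) (T.t i) := fun i =>
    (h _ _).1 (e_self T i)
  have h2 : ∀ j, ∃ i, SameArc G (T.s i) (T.t i) (T'.s j) (T'.t j) := fun j =>
    (h _ _).2 (e_self T' j)
  choose f hf using h1
  choose g hg using h2
  have hgf : ∀ i, g (f i) = i := fun i => hT.inj _ _ (sameArc_trans (hg (f i)) (hf i))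
  have hfg : ∀ j, f (g j) = j := fun j => hT'.inj _ _ (sameArc_trans (hf (g j)) (hg j))
  let e : Fin n ≃ Fin n' := ⟨f, g, hgf, hfg⟩
  have hlam : ∀ a b c d, SameArc G a b c d → L.lam a b = L.lam c d := by
    rintro a b c d ⟨k, hk, ⟨h3, h4⟩ | ⟨h3, h4⟩⟩
    · rw [← h3, ← h4, L.inv k hk]
    · rw [← h3, ← h4, L.inv k hk, L.symm]
  have hl : ∀ i, L.lam (T.s i) (T.t i) = L.lam (T'.s (e i)) (T'.t (e i)) := fun i =>
    (hlam _ _ _ _ (hf i)).symm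
  have key : ∀ m : Fin n' → ℤ, L.mon T (fun i => m (e i)) = L.mon T' m := by
    intro m
    unfold Lam.mon
    rw [← Equiv.prod_comp e]
    exact Finset.prod_congr rfl (fun i _ => by rw [hl i])
  apply Set.Subset.antisymm
  · rintro _ ⟨m, rfl⟩
    refine ⟨fun j => m (e.symm j), ?_⟩
    rw [← key]
    simp
  · rintro _ ⟨m, rfl⟩
    exact ⟨_, key m⟩

/-- The tagged arcs of a triangulation. -/
def baseSet (G : Subgroup SLZ) {ι : Type} (T : Fam ι) : Set TArc :=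
  {τ | (τ.s = false ∧ τ.t = false ∧ T.E G τ.a τ.b ∧
      ∀ g ∈ G, g • τ.a = τ.b → ∀ c : Cusp, g • c ≠ c) ∨
    (τ.s = true ∧ τ.t = false ∧ ∃ g ∈ G, g • τ.a = τ.a ∧ T.E G τ.b (g • τ.b))}

theorem tplain (hTT : TtriStatement) (hMG : MonogStatement) : TplainStatement := by
  intro G hG n T hT
  have hN : T.NonCross G := hT.toNonCross
  -- facts about monogon loops
  have loopE : ∀ a c : Cusp, ∀ g ∈ G, g • c = c → T.E G a (g • a) →
      T.E G c a ∧ (∀ k ∈ G, k • c ≠ a) ∧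
      (∀ k ∈ G, k • c = c → ∃ n : ℤ, k = g ^ n ∨ k = -g ^ n) ∧
      (∀ x y, T.E G x y → ((∃ k ∈ G, k • c = x) → SameArc G c a x y) ∧
        ((∃ k ∈ G, k • c = y) → SameArc G c a x y)) := by
    intro a c g hg hgc hE
    obtain ⟨m1, m2, m3, m4⟩ := hMG G hG a c g hg hgc (e_simple hN hE)
    have m5 : ∀ x y, T.E G x y → (∀ k ∈ G, ¬ Cross x y (k • a) (k • g • a)) := fun x y hxy k hk =>
      hN.nocross _ _ _ _ hxy (e_smul hE hk)
    refine ⟨?_, m3, m1, fun x y hxy => (m4 x y (e_simple hN hxy) (m5 x y hxy)).2⟩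
    rcases hT.star c a m2.1 with h | ⟨x, y, _, _, hxy, hcr⟩
    · exact h
    · exfalso
      apply (m4 x y (e_simple hN hxy) (m5 x y hxy)).1 1 G.one_mem
      rw [one_smul, one_smul]
      exact cross_swap.1 hcr
  have hB1 : ∀ τ ∈ baseSet G T, IsTArc G τ := by
    rintro τ (⟨h1, h2, h3, h4⟩ | ⟨h1, h2, g, hg, h3, h4⟩)
    · exact ⟨e_ne hN h3, (e_simple hN h3).2, h4, fun _ _ _ => by rw [h1, h2]⟩
    · obtain ⟨l1, l2, _, _⟩ := loopE τ.b τ.a g hg h3 h4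
      exact ⟨e_ne hN l1, (e_simple hN l1).2, fun k hk hkk => absurd hkk (l2 k hk),
        fun k hk hkk => absurd hkk (l2 k hk)⟩
  have hEB : ∀ τ ∈ baseSet G T, T.E G τ.a τ.b := by
    rintro τ (⟨h1, h2, h3, h4⟩ | ⟨h1, h2, g, hg, h3, h4⟩)
    · exact h3
    · exact (loopE τ.b τ.a g hg h3 h4).1
  have hcr : ∀ τ ∈ baseSet G T, ∀ υ ∈ baseSet G T,
      ∀ g ∈ G, ¬ Cross τ.a τ.b (g • υ.a) (g • υ.b) := fun τ hτ υ hυ g hg =>
    hN.nocross _ _ _ _ (hEB τ hτ) (e_smul (hEB υ hυ) hg)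
  have hNP : ∀ τ υ : TArc, τ ∈ baseSet G T → υ ∈ baseSet G T →
      (τ.s = true ∧ τ.t = false ∧ ∃ g ∈ G, g • τ.a = τ.a ∧ T.E G τ.b (g • τ.b)) →
      (υ.s = false ∧ υ.t = false) → Compat G τ υ := by
    rintro τ υ hτ hυ ⟨h1, h2, g, hg, h3, h4⟩ ⟨h5, h6⟩
    refine ⟨hcr τ hτ υ hυ, ?_⟩
    obtain ⟨_, _, _, l4⟩ := loopE τ.b τ.a g hg h3 h4
    have l5 := l4 υ.a υ.b (hEB υ hυ)
    by_cases hc : (∃ k ∈ G, k • τ.a = υ.a) ∨ (∃ k ∈ G, k • τ.a = υ.b)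
    · have hs : SameArc G τ.a τ.b υ.a υ.b := by
        rcases hc with hc | hc
        · exact l5.1 hc
        · exact l5.2 hc
      obtain ⟨k, hk, hk' | hk'⟩ := hs
      · left
        exact ⟨⟨k, hk, hk'⟩, Or.inr (by rw [h2, h6])⟩
      · right; left
        exact ⟨⟨k, hk, hk'⟩, Or.inr (by rw [h2, h5])⟩
    · push Not at hc
      right; right
      exact ⟨fun k hk hkk => absurd hkk (hc.1 k hk), fun k hk hkk => absurd hkk (hc.2 k hk),
        fun _ _ _ => by rw [h2, h5], fun _ _ _ => by rw [h2, h6]⟩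
  have hno : ∀ a c a' c' : Cusp, ∀ g ∈ G, g • c = c → T.E G a (g • a) →
      ∀ g' ∈ G, g' • c' = c' → T.E G a' (g' • a') → ∀ k ∈ G, k • c ≠ a' := by
    intro a c a' c' g hg hgc hE g' hg' hgc' hE' k hk hkk
    obtain ⟨_, l2, _, l4⟩ := loopE a c g hg hgc hE
    obtain ⟨h, hh, ⟨h1, h2⟩ | ⟨h1, h2⟩⟩ := (l4 _ _ hE').1 ⟨k, hk, hkk⟩
    · apply l2 (h⁻¹ * g' * h) (G.mul_mem (G.mul_mem (G.inv_mem hh) hg') hh)
      rw [mul_smul, mul_smul, h1, ← h2, inv_smul_smul]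
    · apply l2 (h⁻¹ * g'⁻¹ * h) (G.mul_mem (G.mul_mem (G.inv_mem hh) (G.inv_mem hg')) hh)
      rw [mul_smul, mul_smul, h1, inv_smul_smul, ← h2, inv_smul_smul]
  have hB2 : ∀ τ ∈ baseSet G T, ∀ υ ∈ baseSet G T, Compat G τ υ := by
    intro τ hτ υ hυ
    have hτ' := hτ
    have hυ' := hυ
    rcases hτ' with ⟨h1, h2, h3, h4⟩ | ⟨h1, h2, g, hg, h3, h4⟩ <;>
      rcases hυ' with ⟨i1, i2, i3, i4⟩ | ⟨i1, i2, g', hg', i3, i4⟩
    · exact ⟨hcr τ hτ υ hυ, Or.inr (Or.inr ⟨fun _ _ _ => by rw [h1, i1],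
        fun _ _ _ => by rw [h1, i2], fun _ _ _ => by rw [h2, i1], fun _ _ _ => by rw [h2, i2]⟩)⟩
    · exact compat_symm (hNP υ τ hυ hτ ⟨i1, i2, g', hg', i3, i4⟩ ⟨h1, h2⟩)
    · exact hNP τ υ hτ hυ ⟨h1, h2, g, hg, h3, h4⟩ ⟨i1, i2⟩
    · refine ⟨hcr τ hτ υ hυ, Or.inr (Or.inr ⟨fun _ _ _ => by rw [h1, i1], fun k hk hkk => ?_,
        fun k hk hkk => ?_, fun _ _ _ => by rw [h2, i2]⟩)⟩
      · exact absurd hkk (hno _ _ _ _ g hg h3 h4 g' hg' i3 i4 k hk)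
      · exact absurd (smul_eq_inv hkk) (hno _ _ _ _ g' hg' i3 i4 g hg h3 h4 k⁻¹ (G.inv_mem hk))
  obtain ⟨Tt, hBT, hTt⟩ := exists_tTri (baseSet G T) hB1 hB2
  refine ⟨Tt, hTt, ?_⟩
  obtain ⟨ε, hε, n', T', hT', hE', hnot, hloop, hmon⟩ := hTT G hG Tt hTt
  -- membership
  have hmono : ∀ a b, T.E G a b → (¬ ∀ g ∈ G, g • a = b → ∀ c : Cusp, g • c ≠ c) →
      ∃ c, ∃ g ∈ G, g • c = c ∧ g • a = b ∧ (⟨c, a, true, false⟩ : TArc) ∈ Tt ∧
        (⟨c, a, false, false⟩ : TArc) ∈ Tt ∧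
        (∀ k ∈ G, k • c = c → ∃ n : ℤ, k = g ^ n ∨ k = -g ^ n) := by
    intro a b hE hn
    push Not at hn
    obtain ⟨g, hg, hgb, c, hgc⟩ := hn
    rw [← hgb] at hE
    obtain ⟨l1, l2, l3, _⟩ := loopE a c g hg hgc hE
    refine ⟨c, g, hg, hgc, hgb, hBT (Or.inr ⟨rfl, rfl, g, hg, hgc, hE⟩),
      hBT (Or.inl ⟨rfl, rfl, l1, fun k hk hkk => absurd hkk (l2 k hk)⟩), l3⟩
  have hplain : ∀ a b, T.E G a b → (∀ g ∈ G, g • a = b → ∀ c : Cusp, g • c ≠ c) →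
      (⟨a, b, false, false⟩ : TArc) ∈ Tt := fun a b hE hn =>
    hBT (Or.inl ⟨rfl, rfl, hE, hn⟩)
  -- no changes of tags
  have hε0 : ∀ p, ε p = false := by
    intro p
    by_contra hp
    rw [Bool.not_eq_false] at hp
    have hne : ∃ q, p ≠ q := by
      obtain ⟨a, b, hab⟩ := hG.two
      by_cases hpa : p = a
      · refine ⟨b, fun hpb => hab 1 G.one_mem ?_⟩
        rw [one_smul, ← hpa, hpb]
      · exact ⟨a, hpa⟩
    obtain ⟨q, hq⟩ := hne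
    have hx : ∃ x, T.E G p x := by
      rcases hT.star p q hq with h | ⟨x, _, h, _⟩
      · exact ⟨_, h⟩
      · exact ⟨x, h⟩
    obtain ⟨x, hx⟩ := hx
    by_cases hn : ∀ g ∈ G, g • p = x → ∀ c : Cusp, g • c ≠ c
    · have := (hnot p hp _ (hplain p x hx hn)).1 rfl
      exact absurd this (by simp)
    · obtain ⟨c, g, hg, _, _, h1, _, _⟩ := hmono p x hx hn
      have := (hnot p hp _ h1).2 rfl
      exact absurd this (by simp)
  have hTE : ∀ a b, T.E G a b → T'.E G a b := by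
    intro a b hE
    by_cases hn : ∀ g ∈ G, g • a = b → ∀ c : Cusp, g • c ≠ c
    · exact hE' _ (hplain a b hE hn)
    · obtain ⟨c, g, hg, hgc, hgb, h1, h2, h3⟩ := hmono a b hE hn
      have := hloop c a false h2 h1 g hg hgc h3
      rwa [hgb] at this
  have hEE : ∀ a b, T.E G a b ↔ T'.E G a b := by
    intro a b
    refine ⟨hTE a b, fun h => ?_⟩
    rcases hT.star a b (e_ne hT'.toNonCross h) with h' | ⟨x, y, _, _, hxy, hcr⟩
    · exact h'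
    · exact absurd hcr (hT'.nocross _ _ _ _ h (hTE _ _ hxy))
  intro K _ _ L
  rw [hmon K L L (fun a b => by simp [hε0])]
  exact (range_mon L hT hT' hEE).symm

end Pool.Agent.Lib.MP_eee7a8_ag.TB.C64
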