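import Pool.Agent.Lib.MP_eee7a8_ag.TB.Iface4

/-!
# WFV: finitely many values below a bound
-/

set_option autoImplicit false

namespace Pool.Agent.Lib.MP_eee7a8_ag.TB.C64

open Pool.Agent.Lib.MP_eee7a8_ag.TB

/-- The possible factors. -/
def Dset : Set ℝ := {x | ∃ n : ℕ, x = n ∨ x = ((n : ℝ) + Real.sqrt ((n : ℝ) ^ 2 - 4)) / 2}

theorem dset_fin (C : ℝ) : (Dset ∩ Set.Iic C).Finite := by
  obtain ⟨N, hN⟩ := exists_nat_ge (2 * |C|)
  have hfin : (Set.Iic N : Set ℕ).Finite := Set.finite_Iic N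
  refine Set.Finite.subset ((hfin.image (fun n : ℕ => (n : ℝ))).union
    (hfin.image (fun n : ℕ => ((n : ℝ) + Real.sqrt ((n : ℝ) ^ 2 - 4)) / 2))) ?_
  rintro x ⟨⟨n, hn⟩, hx⟩
  have hx' : x ≤ C := hx
  have hC := le_abs_self C
  rcases hn with rfl | rfl
  · left
    refine ⟨n, ?_, rfl⟩
    have h0 : (0 : ℝ) ≤ |C| := abs_nonneg C
    have : (n : ℝ) ≤ N := by linarith
    exact_mod_cast this
  · right
    refine ⟨n, ?_, rfl⟩
    have h0 := Real.sqrt_nonneg ((n : ℝ) ^ 2 - 4)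
    have : (n : ℝ) ≤ N := by linarith
    exact_mod_cast this

theorem lists_fin (F : Set ℝ) (hF : F.Finite) (n : ℕ) :
    {v : ℝ | ∃ l : List ℝ, l.length ≤ n ∧ (∀ x ∈ l, x ∈ F) ∧ v = l.prod}.Finite := by
  induction n with
  | zero =>
    refine Set.Finite.subset (Set.finite_singleton (1 : ℝ)) ?_
    rintro v ⟨l, hl, _, rfl⟩
    have : l = [] := List.length_eq_zero_iff.mp (by omega)
    rw [this]; simp
  | succ n ih =>
    refine Set.Finite.subset ((Set.finite_singleton (1 : ℝ)).union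
      (Set.Finite.image2 (fun x y : ℝ => x * y) hF ih)) ?_
    rintro v ⟨l, hl, hm, rfl⟩
    cases l with
    | nil => left; simp
    | cons x l =>
      right
      refine ⟨x, hm x (by simp), l.prod, ⟨l, ?_, fun y hy => hm y (by simp [hy]), rfl⟩, ?_⟩
      · simpa using hl
      · simp

theorem reduce (l : List ℝ) (hl : ∀ x ∈ l, x ∈ Dset ∧ (x = 1 ∨ 2 ≤ x)) :
    1 ≤ l.prod ∧ ∃ l' : List ℝ, l'.prod = l.prod ∧ (∀ x ∈ l', x ∈ Dset ∧ x ≤ l.prod) ∧
      (2 : ℝ) ^ l'.length ≤ l.prod := by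
  induction l with
  | nil => exact ⟨by simp, [], by simp, by simp, by simp⟩
  | cons x l ih =>
    obtain ⟨h1, l', h2, h3, h4⟩ := ih (fun y hy => hl y (by simp [hy]))
    obtain ⟨hxD, hx⟩ := hl x (by simp)
    rw [List.prod_cons]
    rcases hx with rfl | hx
    · rw [one_mul]
      exact ⟨h1, l', h2, h3, h4⟩
    · have hle : l.prod ≤ x * l.prod := by nlinarith
      refine ⟨by linarith, x :: l', by rw [List.prod_cons, h2], ?_, ?_⟩
      · intro y hy
        rcases List.mem_cons.mp hy with rfl | hy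
        · exact ⟨hxD, by nlinarith⟩
        · exact ⟨(h3 y hy).1, (h3 y hy).2.trans hle⟩
      · rw [List.length_cons, pow_succ]
        nlinarith [pow_pos (two_pos : (0 : ℝ) < 2) l'.length]

/-- WFV. -/
theorem wfv : WfvStatement := by
  intro C
  obtain ⟨N, hN⟩ := pow_unbounded_of_one_lt C (one_lt_two : (1 : ℝ) < 2)
  refine Set.Finite.subset (lists_fin (Dset ∩ Set.Iic C) (dset_fin C) N) ?_
  rintro v ⟨hv, w, hw1, hw2, rfl⟩
  have hval : w.val = (w.arcs.map (fun p => |(dt p.1 p.2 : ℝ)|) ++ w.els.map rho).prod := by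
    rw [List.prod_append]
    rfl
  have hfac : ∀ x ∈ w.arcs.map (fun p => |(dt p.1 p.2 : ℝ)|) ++ w.els.map rho,
      x ∈ Dset ∧ (x = 1 ∨ 2 ≤ x) := by
    intro x hx
    rcases List.mem_append.mp hx with hx | hx
    · obtain ⟨p, hp, rfl⟩ := List.mem_map.mp hx
      have h1 : dt p.1 p.2 ≠ 0 := fun h => hw1 p hp (dt_eq_zero.1 h)
      have h2 : 1 ≤ (dt p.1 p.2).natAbs := Nat.one_le_iff_ne_zero.mpr (Int.natAbs_ne_zero.mpr h1)
      have h3 : |(dt p.1 p.2 : ℝ)| = ((dt p.1 p.2).natAbs : ℝ) := by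
        rw [Nat.cast_natAbs, Int.cast_abs]
      refine ⟨⟨_, Or.inl h3⟩, ?_⟩
      rw [h3]
      rcases Nat.eq_or_lt_of_le h2 with h | h
      · left; rw [← h]; simp
      · right; exact_mod_cast h
    · obtain ⟨g, hg, rfl⟩ := List.mem_map.mp hx
      have h1 := hw2 g hg
      have h2 : (3 : ℝ) ≤ |(g.1.trace : ℝ)| := by
        have : (3 : ℤ) ≤ |g.1.trace| := by omega
        exact_mod_cast this
      have h3 : |(g.1.trace : ℝ)| = ((g.1.trace).natAbs : ℝ) := by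
        rw [Nat.cast_natAbs, Int.cast_abs]
      have h4 : rho g = (((g.1.trace).natAbs : ℝ) +
          Real.sqrt (((g.1.trace).natAbs : ℝ) ^ 2 - 4)) / 2 := by
        unfold rho
        rw [← h3, sq_abs]
      refine ⟨⟨_, Or.inr h4⟩, Or.inr ?_⟩
      rw [h4, ← h3]
      have h5 : (1 : ℝ) ≤ Real.sqrt (|(g.1.trace : ℝ)| ^ 2 - 4) := by
        apply Real.le_sqrt_of_sq_le
        nlinarith
      linarith
  obtain ⟨_, l', h2, h3, h4⟩ := reduce _ hfac
  rw [← hval] at h2 h3 h4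
  refine ⟨l', ?_, fun x hx => ⟨(h3 x hx).1, (h3 x hx).2.trans hv⟩, h2.symm⟩
  have h5 : (2 : ℝ) ^ l'.length < 2 ^ N := lt_of_le_of_lt (h4.trans hv) hN
  exact (Nat.pow_lt_pow_iff_right (by norm_num : 1 < 2)).mp (by exact_mod_cast h5) |>.le

end Pool.Agent.Lib.MP_eee7a8_ag.TB.C64
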